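import Pool.Agent.Y744.GP.Card

/-!
`(a, b)`-geproci sets in projective three-space.
-/

set_option autoImplicit false

namespace Pool.Agent.R862.GP

open MvPolynomial Pool.Agent.Results.MP_586029_ag.GeprociMatroid

/-- The ideal `I` of the homogeneous coordinate ring of the plane is generated by a regular
sequence of a form of degree `a` and a form of degree `b`, i.e. by two forms of degrees `a` and
`b` without common factor. -/
def IsCIOfType (a b : ℕ) (I : Ideal R3) : Prop :=
  ∃ F G : R3, F.IsHomogeneous a ∧ G.IsHomogeneous b ∧
    RingTheory.Sequence.IsRegular R3 [F, G] ∧ I = Ideal.span {F, G}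

/-- `Z` is `(a, b)`-geproci, where `1 ≤ a ≤ b`: `Z` is finite and for a general point `P` (outside
the zero set of some nonzero polynomial `D`) the homogeneous ideal of the image of `Z` under the
projection from `P` to a plane is generated by a form of degree `a` and a form of degree `b`
without common factor.  The projection from `P` to a plane is given by a linear map `π` from `ℂ⁴`
to `ℂ³` whose kernel is the line `P`. -/
def IsABGeproci (a b : ℕ) (Z : Set P3) : Prop :=
  1 ≤ a ∧ a ≤ b ∧ Z.Finite ∧ ∃ D : MvPolynomial (Fin 4) ℂ, D ≠ 0 ∧ ∀ P : V4, eval P D ≠ 0 →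
    ∀ π : V4 →ₗ[ℂ] V3, LinearMap.ker π = Submodule.span ℂ {P} →
      IsCIOfType a b (imageIdeal Z π)

/-- A nontrivial `(a, b)`-geproci set: it is not contained in a plane and it is not a grid. -/
def IsNontrivialABGeproci (a b : ℕ) (Z : Set P3) : Prop :=
  IsABGeproci a b Z ∧ ¬ IsDegenerate Z ∧ ¬ IsGrid Z

end Pool.Agent.R862.GP
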